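import Pool.Agent.Helper36.SPR.St5

/-!
# SPR, module PCF

The test function of a block is a combination of periodic functions.
-/

set_option autoImplicit false

namespace Pool.Agent.Helper96.SPR

open Finset
open Pool.Agent.Helper36.SPR

/-- combinations indexed by a finite type -/
private theorem pc_of_fintype {k W T : ℕ} {C : ℝ} {F : (Fin k → ℕ) → ℝ} {ι : Type} [Fintype ι]
    (c : ι → ℝ) (g : ι → (Fin k → ℕ) → ℝ) (t : ι → ℕ)
    (h : ∀ l, 0 < t l ∧ t l ≤ T ∧ t l ∣ W ∧ (∀ v, 0 ≤ g l v ∧ g l v ≤ 1) ∧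
      ∀ v v' : Fin k → ℕ, (∀ i, v i ≡ v' i [MOD t l]) → g l v = g l v')
    (hc : ∑ l, |c l| ≤ C) (hF : ∀ v, F v = ∑ l, c l * g l v) : PC k W T C F := by
  classical
  let e : ι ≃ Fin (Fintype.card ι) := Fintype.equivFin ι
  refine ⟨Fintype.card ι, fun l => c (e.symm l), fun l => g (e.symm l), fun l => t (e.symm l),
    fun l => h _, ?_, ?_⟩
  · rw [Equiv.sum_comp e.symm (fun l => |c l|)]
    exact hc
  · intro v
    rw [hF v, Equiv.sum_comp e.symm (fun l => c l * g l v)]

private theorem pow_per {p : ℕ} [Fact p.Prime] {x : ZMod p} (hx : x ≠ 0) {a b : ℕ}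
    (h : a ≡ b [MOD p - 1]) : x ^ a = x ^ b := by
  have key : ∀ n : ℕ, x ^ n = x ^ (n % (p - 1)) := by
    intro n
    conv_lhs => rw [← Nat.div_add_mod n (p - 1)]
    rw [pow_add, pow_mul, ZMod.pow_card_sub_one_eq_one hx, one_pow, one_mul]
  rw [key a, key b]
  congr 1

private theorem dvd_per {k p : ℕ} (hp : p.Prime) (h2 : 2 < p) {v v' : Fin k → ℕ}
    (h : ∀ i, v i ≡ v' i [MOD p - 1]) :
    (p ∣ 1 + ∑ i, 2 ^ (v i)) ↔ (p ∣ 1 + ∑ i, 2 ^ (v' i)) := by
  haveI : Fact p.Prime := ⟨hp⟩
  have h20 : (2 : ZMod p) ≠ 0 := by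
    have h1 : ((2 : ℕ) : ZMod p) ≠ 0 := by
      rw [Ne, ZMod.natCast_eq_zero_iff]
      intro hd
      have := Nat.le_of_dvd (by norm_num) hd
      omega
    simpa using h1
  rw [← ZMod.natCast_eq_zero_iff, ← ZMod.natCast_eq_zero_iff]
  have : ((1 + ∑ i, 2 ^ (v i) : ℕ) : ZMod p) = ((1 + ∑ i, 2 ^ (v' i) : ℕ) : ZMod p) := by
    push_cast
    congr 1
    exact Finset.sum_congr rfl (fun i _ => pow_per h20 (h i))
  rw [this]

/-- indicator -/
private noncomputable def ind (k p : ℕ) (v : Fin k → ℕ) : ℝ :=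
  if p ∣ 1 + ∑ i, 2 ^ (v i) then 1 else 0

private noncomputable def co (s : ℝ) (B : Finset ℕ) : Option {x // x ∈ B} → ℝ
  | none => 1
  | some _ => -(1 / s)

private noncomputable def io (k : ℕ) (B : Finset ℕ) : Option {x // x ∈ B} → (Fin k → ℕ) → ℝ
  | none => fun _ => 1
  | some p => ind k p.1

/-- the primes of an index -/
private def so (B : Finset ℕ) : Option {x // x ∈ B} → Finset ℕ
  | none => ∅
  | some p => {p.1}

private theorem so_sub (B : Finset ℕ) (o : Option {x // x ∈ B}) : so B o ⊆ B := by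
  cases o with
  | none => exact Finset.empty_subset _
  | some p => exact Finset.singleton_subset_iff.2 p.2

private theorem so_card (B : Finset ℕ) (o : Option {x // x ∈ B}) : (so B o).card ≤ 1 := by
  cases o with
  | none => simp [so]
  | some p => simp [so]

private theorem io_bd (k : ℕ) (B : Finset ℕ) (o : Option {x // x ∈ B}) (v : Fin k → ℕ) :
    0 ≤ io k B o v ∧ io k B o v ≤ 1 := by
  cases o with
  | none => simp [io]
  | some p =>
    simp only [io, ind]
    split_ifs <;> norm_num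

private theorem io_per (k : ℕ) (B : Finset ℕ) (hB : ∀ p ∈ B, p.Prime ∧ 2 < p)
    (o : Option {x // x ∈ B}) {v v' : Fin k → ℕ}
    (h : ∀ p ∈ so B o, ∀ i, v i ≡ v' i [MOD p - 1]) : io k B o v = io k B o v' := by
  cases o with
  | none => rfl
  | some p =>
    have hp := hB p.1 p.2
    have h1 := dvd_per (k := k) hp.1 hp.2 (h p.1 (by simp [so]))
    simp only [io, ind]
    by_cases hd : p.1 ∣ 1 + ∑ i, 2 ^ (v i)
    · rw [if_pos hd, if_pos (h1.1 hd)]
    · rw [if_neg hd, if_neg (fun h' => hd (h1.2 h'))]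

private theorem sum_io (k : ℕ) (B : Finset ℕ) (s : ℝ) (v : Fin k → ℕ) :
    ∑ o, co s B o * io k B o v = 1 - (Xb k B v : ℝ) / s := by
  rw [Fintype.sum_option]
  have h1 : (Xb k B v : ℝ) = ∑ p : {x // x ∈ B}, ind k p.1 v := by
    rw [Finset.sum_coe_sort B (fun p => ind k p v)]
    simp only [Xb, ind, Finset.card_filter]
    push_cast
    rfl
  simp only [co, io, one_mul]
  rw [h1, ← Finset.mul_sum]
  ring

private theorem sum_co (B : Finset ℕ) {s : ℝ} (hs : 1 ≤ s) :
    ∑ o, |co s B o| ≤ 1 + B.card := by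
  rw [Fintype.sum_option]
  simp only [co]
  rw [abs_one]
  have h1 : |(-(1 / s))| ≤ 1 := by
    rw [abs_neg, abs_of_nonneg (by positivity), div_le_one (by linarith)]
    exact hs
  have h2 : ∑ _p : {x // x ∈ B}, |(-(1 / s))| ≤ ∑ _p : {x // x ∈ B}, (1 : ℝ) :=
    Finset.sum_le_sum (fun _ _ => h1)
  simp only [Finset.sum_const, Finset.card_univ, Fintype.card_coe, nsmul_eq_mul, mul_one] at h2 ⊢
  linarith

theorem hPCF : StPCF := by
  classical
  intro k M B hB hs
  have hBne : B.Nonempty := by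
    by_contra h
    rw [Finset.not_nonempty_iff_eq_empty] at h
    rw [h] at hs
    simp at hs
    linarith
  have hM3 : 3 ≤ M := by
    obtain ⟨p, hp⟩ := hBne
    have := hB p hp
    omega
  set s : ℝ := ∑ p ∈ B, (1 : ℝ) / p with hsdef
  have hcard : B.card + 1 ≤ M := by
    have h1 : B ⊆ Finset.Ioc 2 M := by
      intro p hp
      have := hB p hp
      rw [Finset.mem_Ioc]
      exact ⟨this.2.1, this.2.2⟩
    have h2 := Finset.card_le_card h1
    rw [Nat.card_Ioc] at h2
    omega
  have hpos : ∀ p ∈ B, 0 < p - 1 := by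
    intro p hp
    have := hB p hp
    omega
  refine pc_of_fintype (ι := Option {x // x ∈ B} × Option {x // x ∈ B})
    (fun q => co s B q.1 * co s B q.2) (fun q v => io k B q.1 v * io k B q.2 v)
    (fun q => ∏ p ∈ so B q.1 ∪ so B q.2, (p - 1)) ?_ ?_ ?_
  · intro q
    have hsub : so B q.1 ∪ so B q.2 ⊆ B := Finset.union_subset (so_sub B _) (so_sub B _)
    refine ⟨?_, ?_, ?_, ?_, ?_⟩
    · exact Finset.prod_pos (fun p hp => hpos p (hsub hp))
    · have h1 : ∏ p ∈ so B q.1 ∪ so B q.2, (p - 1) ≤ M ^ (so B q.1 ∪ so B q.2).card := by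
        refine Finset.prod_le_pow_card _ _ _ ?_
        intro p hp
        have := (hB p (hsub hp)).2.2
        omega
      have h2 : (so B q.1 ∪ so B q.2).card ≤ 2 := by
        have := Finset.card_union_le (so B q.1) (so B q.2)
        have h3 := so_card B q.1
        have h4 := so_card B q.2
        omega
      exact h1.trans (Nat.pow_le_pow_right (by omega) h2)
    · exact Finset.prod_dvd_prod_of_subset _ _ _ hsub
    · intro v
      have h1 := io_bd k B q.1 v
      have h2 := io_bd k B q.2 v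
      exact ⟨mul_nonneg h1.1 h2.1, mul_le_one₀ h1.2 h2.1 h2.2⟩
    · intro v v' hv
      have hper : ∀ p ∈ so B q.1 ∪ so B q.2, ∀ i, v i ≡ v' i [MOD p - 1] := by
        intro p hp i
        exact (hv i).of_dvd (Finset.dvd_prod_of_mem (fun p => p - 1) hp)
      have hB' : ∀ p ∈ B, p.Prime ∧ 2 < p := fun p hp => ⟨(hB p hp).1, (hB p hp).2.1⟩
      have e1 := io_per k B hB' q.1 (v := v) (v' := v')
        (fun p hp => hper p (Finset.mem_union_left _ hp))
      have e2 := io_per k B hB' q.2 (v := v) (v' := v')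
        (fun p hp => hper p (Finset.mem_union_right _ hp))
      show io k B q.1 v * io k B q.2 v = io k B q.1 v' * io k B q.2 v'
      rw [e1, e2]
  · have h1 : ∑ q : Option {x // x ∈ B} × Option {x // x ∈ B}, |co s B q.1 * co s B q.2| =
        (∑ o, |co s B o|) * (∑ o, |co s B o|) := by
      rw [Finset.sum_mul_sum, ← Finset.univ_product_univ, Finset.sum_product]
      simp only [abs_mul]
    rw [h1]
    have h2 := sum_co B hs
    have h3 : (0 : ℝ) ≤ ∑ o, |co s B o| := Finset.sum_nonneg (fun _ _ => abs_nonneg _)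
    have h4 : (1 : ℝ) + B.card ≤ M := by
      have : ((B.card + 1 : ℕ) : ℝ) ≤ M := by exact_mod_cast hcard
      push_cast at this
      linarith
    have h5 : ∑ o, |co s B o| ≤ M := h2.trans h4
    rw [pow_two]
    exact mul_le_mul h5 h5 h3 (by positivity)
  · intro v
    have h1 : fb k B v = (∑ o, co s B o * io k B o v) * (∑ o, co s B o * io k B o v) := by
      rw [sum_io]
      simp only [fb, ← hsdef]
      ring
    rw [h1, Finset.sum_mul_sum, ← Finset.univ_product_univ, Finset.sum_product]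
    refine Finset.sum_congr rfl (fun o _ => Finset.sum_congr rfl (fun o' _ => ?_))
    ring

end Pool.Agent.Helper96.SPR
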